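import Mathlib

/-!
# Core lemmas for the rigidity of a mixture of two exponentials (problem MP_c7609e_pr)

Complex analysis part, elimination identity of positive measures, finiteness of all exponential
moments.
-/

set_option autoImplicit false

namespace Pool.Agent.Lib.MP_c7609e

section ComplexPart

open Complex Metric Set Filter Topology

/-- An entire function of polynomial growth of degree two is a quadratic polynomial. -/
theorem quadratic_of_growth (g : ℂ → ℂ) (hg : Differentiable ℂ g) (K : ℝ)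
    (hb : ∀ z, ‖g z‖ ≤ K * (1 + ‖z‖ ^ 2)) :
    ∃ c0 c1 c2 : ℂ, ∀ z, g z = c0 + c1 * z + c2 * z ^ 2 := by
  have hK : 0 ≤ K := by
    have := (norm_nonneg (g 0)).trans (hb 0)
    simpa using this
  -- third derivative vanishes
  have h3 : ∀ c, iteratedDeriv 3 g c = 0 := by
    intro c
    have hbd : ∀ R : ℝ, 0 < R → ‖iteratedDeriv 3 g c‖ ≤
        (Nat.factorial 3 : ℝ) * (K * (1 + (‖c‖ + R) ^ 2)) / R ^ 3 := by
      intro R hR
      apply norm_iteratedDeriv_le_of_forall_mem_sphere_norm_le 3 hR hg.diffContOnCl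
      intro z hz
      refine (hb z).trans ?_
      have : ‖z‖ ≤ ‖c‖ + R := by
        have h1 : ‖z - c‖ = R := by simpa [dist_eq_norm] using hz
        calc ‖z‖ = ‖c + (z - c)‖ := by ring_nf
          _ ≤ ‖c‖ + ‖z - c‖ := norm_add_le _ _
          _ = ‖c‖ + R := by rw [h1]
      gcongr
    have hlim : Tendsto (fun R : ℝ => (Nat.factorial 3 : ℝ) * (K * (1 + (‖c‖ + R) ^ 2)) / R ^ 3)
        atTop (𝓝 0) := by
      have e1 : Tendsto (fun R : ℝ => R⁻¹) atTop (𝓝 0) := tendsto_inv_atTop_zero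
      have e2 : Tendsto (fun R : ℝ => (Nat.factorial 3 : ℝ) * K *
          ((R⁻¹) ^ 3 + (‖c‖ * R⁻¹ + 1) ^ 2 * R⁻¹)) atTop (𝓝 ((Nat.factorial 3 : ℝ) * K *
          (0 ^ 3 + (‖c‖ * 0 + 1) ^ 2 * 0))) := by
        apply Tendsto.const_mul
        apply Tendsto.add (e1.pow 3)
        apply Tendsto.mul _ e1
        exact ((e1.const_mul _).add_const 1).pow 2
      have e3 : (Nat.factorial 3 : ℝ) * K * (0 ^ 3 + (‖c‖ * 0 + 1) ^ 2 * 0) = 0 := by ring
      rw [e3] at e2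
      refine e2.congr' ?_
      filter_upwards [eventually_gt_atTop 0] with R hR
      field_simp
      
    have : ‖iteratedDeriv 3 g c‖ ≤ 0 := by
      refine ge_of_tendsto hlim ?_
      filter_upwards [eventually_gt_atTop 0] with R hR using hbd R hR
    simpa using this
  -- integrate back
  have hd0 : Differentiable ℂ g := hg
  have hd1 : Differentiable ℂ (deriv g) := hg.deriv
  have hd2 : Differentiable ℂ (deriv (deriv g)) := hd1.deriv
  have h3' : ∀ c, deriv (deriv (deriv g)) c = 0 := by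
    intro c
    have := h3 c
    simpa [iteratedDeriv_succ] using this
  obtain ⟨A, hA⟩ : ∃ A, ∀ z, deriv (deriv g) z = A :=
    ⟨deriv (deriv g) 0, fun z => is_const_of_deriv_eq_zero hd2 h3' z 0⟩
  obtain ⟨B, hB⟩ : ∃ B, ∀ z, deriv g z = A * z + B := by
    have hdd : Differentiable ℂ (fun z => deriv g z - A * z) := by fun_prop
    refine ⟨deriv g 0 - A * 0, fun z => ?_⟩
    have := is_const_of_deriv_eq_zero hdd (fun w => ?_) z 0
    · have h' : deriv g z - A * z = deriv g 0 - A * 0 := this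
      linear_combination h'
    · have e1 : deriv (fun z => deriv g z - A * z) w = deriv (deriv g) w - A := by
        rw [deriv_fun_sub (hd1 w) (by fun_prop)]
        simp
      rw [e1, hA, sub_self]
  refine ⟨g 0, B, A / 2, fun z => ?_⟩
  have hdd : Differentiable ℂ (fun z => g z - (B * z + A / 2 * z ^ 2)) := by fun_prop
  have := is_const_of_deriv_eq_zero hdd (fun w => ?_) z 0
  · have h' : g z - (B * z + A / 2 * z ^ 2) = g 0 - (B * 0 + A / 2 * 0 ^ 2) := this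
    linear_combination h'
  · have e1 : HasDerivAt (fun z => g z - (B * z + A / 2 * z ^ 2))
        (deriv g w - (B * 1 + A / 2 * ((2 : ℕ) * w ^ (2 - 1) * 1))) w := by
      apply HasDerivAt.fun_sub (hg w).hasDerivAt
      apply HasDerivAt.fun_add ((hasDerivAt_id' w).const_mul B)
      exact ((hasDerivAt_id' w).fun_pow 2).const_mul _
    rw [e1.deriv, hB]
    push_cast
    ring

/-- A zero free entire function of order two, finite type, is the exponential of a quadratic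
polynomial. -/
theorem exp_quadratic_of_growth (W : ℂ → ℂ) (hW : Differentiable ℂ W) (h0 : ∀ z, W z ≠ 0)
    (B A : ℝ) (hA : 0 ≤ A) (hb : ∀ z, ‖W z‖ ≤ Real.exp (B + A * ‖z‖ ^ 2)) :
    ∃ c0 c1 c2 : ℂ, ∀ z, W z = Complex.exp (c0 + c1 * z + c2 * z ^ 2) := by
  -- logarithm
  have hlog : ∃ g : ℂ → ℂ, Differentiable ℂ g ∧ ∀ z, W z = Complex.exp (g z) := by
    have hq : Differentiable ℂ (fun z => deriv W z / W z) := hW.deriv.div hW h0
    obtain ⟨g, hg0, hg⟩ := (hq.isExactOn_univ).with_val_at 0 (Complex.log (W 0))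
    have hgd : Differentiable ℂ g := fun z => (hg z (mem_univ z)).differentiableAt
    refine ⟨g, hgd, fun z => ?_⟩
    have hdd : Differentiable ℂ (fun z => W z * Complex.exp (-g z)) := by fun_prop
    have hc := is_const_of_deriv_eq_zero hdd (fun w => ?_) z 0
    · have h' : W z * Complex.exp (-g z) = W 0 * Complex.exp (-g 0) := hc
      rw [hg0, Complex.exp_neg, Complex.exp_neg, Complex.exp_log (h0 0),
        mul_inv_cancel₀ (h0 0)] at h'
      field_simp at h'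
      exact h'
    · have e1 : HasDerivAt (fun z => W z * Complex.exp (-g z))
          (deriv W w * Complex.exp (-g w) + W w * (Complex.exp (-g w) * (-(deriv W w / W w)))) w := by
        apply HasDerivAt.fun_mul (hW w).hasDerivAt
        exact ((hg w (mem_univ w)).neg).cexp
      rw [e1.deriv]
      field_simp [h0 w]
      ring
  obtain ⟨g, hgd, hg⟩ := hlog
  -- real part bound
  have hre : ∀ z, (g z).re ≤ B + A * ‖z‖ ^ 2 := by
    intro z
    have := hb z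
    rw [hg z, Complex.norm_exp] at this
    exact Real.exp_le_exp.mp this
  have hquad : ∀ z, ‖g z‖ ≤ (2 * (|B| + 1) + 8 * A + 3 * ‖g 0‖ + 8 * A) * (1 + ‖z‖ ^ 2) := by
    intro z
    set r := ‖z‖ + 1 with hr
    have hr0 : 0 < r := by positivity
    set M := |B| + 1 + A * (2 * r) ^ 2 with hM
    have hM0 : 0 < M := by positivity
    have hmem : z ∈ ball (0 : ℂ) (2 * r) := by
      simp [hr]; linarith [norm_nonneg z]
    have hmaps : MapsTo g (ball 0 (2 * r)) {z | z.re ≤ M} := by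
      intro w hw
      have hw' : ‖w‖ < 2 * r := by simpa using hw
      have : (g w).re ≤ B + A * ‖w‖ ^ 2 := hre w
      have h2 : A * ‖w‖ ^ 2 ≤ A * (2 * r) ^ 2 := by gcongr
      have h3 : B ≤ |B| := le_abs_self B
      show (g w).re ≤ M
      linarith
    have := Complex.borelCaratheodory hM0 (hgd.differentiableOn) hmaps (by positivity) hmem
    have hden : r ≤ 2 * r - ‖z‖ := by linarith
    have hdpos : 0 < 2 * r - ‖z‖ := lt_of_lt_of_le hr0 hden
    have hz1 : ‖z‖ ≤ r := by linarith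
    have b1 : 2 * M * ‖z‖ / (2 * r - ‖z‖) ≤ 2 * M := by
      rw [div_le_iff₀ hdpos]
      nlinarith
    have b2 : ‖g 0‖ * (2 * r + ‖z‖) / (2 * r - ‖z‖) ≤ 3 * ‖g 0‖ := by
      rw [div_le_iff₀ hdpos]
      nlinarith [norm_nonneg (g 0)]
    have hsq : (2 * r) ^ 2 ≤ 8 * (1 + ‖z‖ ^ 2) := by
      rw [hr]; nlinarith [sq_nonneg (‖z‖ - 1)]
    have b3 : 2 * M ≤ 2 * (|B| + 1) + 2 * (A * (8 * (1 + ‖z‖ ^ 2))) := by
      rw [hM]
      nlinarith [mul_le_mul_of_nonneg_left hsq hA]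
    have hn : 0 ≤ ‖z‖ ^ 2 := by positivity
    have hg0 := norm_nonneg (g 0)
    have hBn : 0 ≤ |B| := abs_nonneg B
    calc ‖g z‖ ≤ _ := this
      _ ≤ 2 * M + 3 * ‖g 0‖ := add_le_add b1 b2
      _ ≤ 2 * (|B| + 1) + 2 * (A * (8 * (1 + ‖z‖ ^ 2))) + 3 * ‖g 0‖ := by linarith
      _ ≤ _ := by nlinarith [mul_nonneg hBn hn, mul_nonneg hg0 hn, mul_nonneg hA hn]
  obtain ⟨c0, c1, c2, hc⟩ := quadratic_of_growth g hgd _ hquad
  exact ⟨c0, c1, c2, fun z => by rw [hg z, hc z]⟩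

/-- If `W = N / Q` satisfies `W (1 + W) = 2 F` with `N, Q, F` entire and `Q` not identically
zero, then `W` extends to an entire function. -/
theorem exists_entire_quotient (N Q F : ℂ → ℂ) (hN : Differentiable ℂ N)
    (hQ : Differentiable ℂ Q) (hF : Differentiable ℂ F) (hQ0 : Q 0 ≠ 0)
    (h : ∀ z, N z * (Q z + N z) = 2 * F z * (Q z) ^ 2) :
    ∃ W : ℂ → ℂ, Differentiable ℂ W ∧ ∀ z, Q z * W z = N z := by
  have hNa : AnalyticOnNhd ℂ N univ := hN.differentiableOn.analyticOnNhd isOpen_univ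
  have hQa : AnalyticOnNhd ℂ Q univ := hQ.differentiableOn.analyticOnNhd isOpen_univ
  have hQne : ∀ x, ∀ᶠ z in 𝓝[≠] x, Q z ≠ 0 := by
    intro x
    rcases (hQa x (mem_univ x)).eventually_eq_zero_or_eventually_ne_zero with h0 | h0
    · exfalso
      have := hQa.eqOn_zero_of_preconnected_of_eventuallyEq_zero isPreconnected_univ
        (mem_univ x) h0
      exact hQ0 (this (mem_univ 0))
    · exact h0
  set f : ℂ → ℂ := fun z => N z / Q z with hf
  have hmer : MeromorphicOn f univ := fun x hx =>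
    (hNa x hx).meromorphicAt.div (hQa x hx).meromorphicAt
  set W := toMeromorphicNFOn f univ with hW
  have hWnf := meromorphicNFOn_toMeromorphicNFOn f univ
  have hWeq : ∀ x, W =ᶠ[𝓝[≠] x] f := fun x => hmer.toMeromorphicNFOn_eq_self_on_nhdsNE (mem_univ x)
  have hWan : ∀ x, AnalyticAt ℂ W x := by
    intro x
    rw [← (hWnf (mem_univ x)).meromorphicOrderAt_nonneg_iff_analyticAt]
    by_contra hneg
    push Not at hneg
    rw [meromorphicOrderAt_congr (hWeq x)] at hneg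
    have ht := tendsto_cobounded_of_meromorphicOrderAt_neg hneg
    have hFc : ∀ᶠ z in 𝓝[≠] x, ‖F z‖ < ‖F x‖ + 1 := by
      apply eventually_nhdsWithin_of_eventually_nhds
      have : Tendsto (fun z => ‖F z‖) (𝓝 x) (𝓝 ‖F x‖) := (hF.continuous.norm).tendsto x
      exact this.eventually (gt_mem_nhds (lt_add_one _))
    have hbig : ∀ᶠ z in 𝓝[≠] x, 2 * (‖F x‖ + 1) + 1 < ‖f z‖ := by
      have := tendsto_norm_cobounded_atTop.comp ht
      exact this.eventually_gt_atTop _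
    have hfalse : ∀ᶠ z in 𝓝[≠] x, False := by
      filter_upwards [hFc, hbig, hQne x] with z h1 h2 h3
      have e : f z * (1 + f z) = 2 * F z := by
        have := h z
        simp only [hf]
        field_simp
        linear_combination this
      have e2 : ‖f z‖ * ‖1 + f z‖ = 2 * ‖F z‖ := by
        rw [← norm_mul, e, norm_mul]; simp
      have e3 : ‖f z‖ - 1 ≤ ‖1 + f z‖ := by
        have := norm_sub_norm_le (f z) (-1)
        simp at this
        rw [add_comm] at this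
        simpa [add_comm] using this
      have hn := norm_nonneg (F x)
      nlinarith [norm_nonneg (f z)]
    exact hfalse.exists.elim (fun _ h => h)
  refine ⟨W, fun x => (hWan x).differentiableAt, fun z => ?_⟩
  -- identity on punctured neighbourhood, then by continuity
  have h1 : (fun w => Q w * W w) =ᶠ[𝓝[≠] z] N := by
    filter_upwards [hWeq z, hQne z] with w hw1 hw2
    rw [hw1]; simp only [hf]; field_simp
  have hc1 : ContinuousAt (fun w => Q w * W w) z :=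
    (hQ.continuous.continuousAt).mul (hWan z).continuousAt
  have hc2 : ContinuousAt N z := hN.continuous.continuousAt
  exact tendsto_nhds_unique ((hc1.tendsto.mono_left nhdsWithin_le_nhds).congr' h1)
    (hc2.tendsto.mono_left nhdsWithin_le_nhds)

/-- Two entire functions which agree on the imaginary axis agree everywhere. -/
theorem eq_of_eq_on_imag (f g : ℂ → ℂ) (hf : Differentiable ℂ f) (hg : Differentiable ℂ g)
    (h : ∀ t : ℝ, f (t * I) = g (t * I)) : f = g := by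
  have hfa : AnalyticOnNhd ℂ f univ := hf.differentiableOn.analyticOnNhd isOpen_univ
  have hga : AnalyticOnNhd ℂ g univ := hg.differentiableOn.analyticOnNhd isOpen_univ
  apply hfa.eq_of_frequently_eq hga (z₀ := 0)
  have hmap : Tendsto (fun t : ℝ => (t : ℂ) * I) (𝓝[≠] (0 : ℝ)) (𝓝[≠] (0 : ℂ)) := by
    apply tendsto_nhdsWithin_of_tendsto_nhds_of_eventually_within
    · have : Continuous (fun t : ℝ => (t : ℂ) * I) := by fun_prop
      have h0 := this.tendsto 0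
      simp at h0
      exact h0.mono_left nhdsWithin_le_nhds
    · filter_upwards [self_mem_nhdsWithin] with t ht
      simp at ht ⊢
      exact ht
  exact hmap.frequently (Frequently.of_forall h)

/-- The complex analytic core of the rigidity statement. -/
theorem exponent_quadratic (a C A : ℝ) (hC : 0 ≤ C) (hA : 0 ≤ A) (F₁ F₂ : ℂ → ℂ)
    (hF₁ : Differentiable ℂ F₁) (hF₂ : Differentiable ℂ F₂) (s₁ s₂ : ℝ → ℝ)
    (hs₁ : ∀ t, 0 ≤ s₁ t) (hs₂ : ∀ t, 0 ≤ s₂ t) (hs : ∀ t, s₁ t + s₂ t = a * t ^ 2)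
    (h₁ : ∀ t : ℝ, F₁ (t * I) = ((Real.exp (-s₁ t) + Real.exp (-2 * s₁ t)) / 2 : ℝ))
    (h₂ : ∀ t : ℝ, F₂ (t * I) = ((Real.exp (-s₂ t) + Real.exp (-2 * s₂ t)) / 2 : ℝ))
    (hg₁ : ∀ z, ‖F₁ z‖ ≤ C * Real.exp (A * z.re ^ 2)) :
    ∃ c : ℝ, 0 ≤ c ∧ ∀ t, s₁ t = c * t ^ 2 := by
  -- the Gaussian factor
  set E : ℂ → ℂ := fun z => Complex.exp (a * z ^ 2) with hE
  have hEd : Differentiable ℂ E := by fun_prop
  set z₁ : ℝ → ℝ := fun t => Real.exp (-s₁ t) with hz₁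
  set z₂ : ℝ → ℝ := fun t => Real.exp (-s₂ t) with hz₂
  have hz₁p : ∀ t, 0 < z₁ t := fun t => Real.exp_pos _
  have hz₂p : ∀ t, 0 < z₂ t := fun t => Real.exp_pos _
  have hEi : ∀ t : ℝ, E (t * I) = ((z₁ t * z₂ t : ℝ) : ℂ) := by
    intro t
    simp only [hE, hz₁, hz₂]
    rw [← Real.exp_add, Complex.ofReal_exp]
    congr 1
    have := hs t
    have e : (-s₁ t + -s₂ t) = -(a * t ^ 2) := by linarith
    rw [e]; push_cast
    rw [mul_pow, I_sq]; ring
  have hF₁i : ∀ t : ℝ, F₁ (t * I) = (((z₁ t + z₁ t ^ 2) / 2 : ℝ) : ℂ) := by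
    intro t
    rw [h₁ t]
    simp only [hz₁]
    rw [← Real.exp_nat_mul]
    congr 3
    push_cast; ring_nf
  have hF₂i : ∀ t : ℝ, F₂ (t * I) = (((z₂ t + z₂ t ^ 2) / 2 : ℝ) : ℂ) := by
    intro t
    rw [h₂ t]
    simp only [hz₂]
    rw [← Real.exp_nat_mul]
    congr 3
    push_cast; ring_nf
  set Q : ℂ → ℂ := fun z => 4 * F₁ z * F₂ z - (E z) ^ 2 with hQ
  set N : ℂ → ℂ := fun z => E z * (2 * F₁ z + E z) with hN
  set M : ℂ → ℂ := fun z => E z * (2 * F₂ z + E z) with hM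
  have hQd : Differentiable ℂ Q := by fun_prop
  have hNd : Differentiable ℂ N := by fun_prop
  have hMd : Differentiable ℂ M := by fun_prop
  have hQi : ∀ t : ℝ, Q (t * I) = ((z₁ t * z₂ t * (1 + z₁ t + z₂ t) : ℝ) : ℂ) := by
    intro t
    simp only [hQ]
    rw [hF₁i, hF₂i, hEi]
    push_cast; ring
  have hNi : ∀ t : ℝ, N (t * I) = ((z₁ t * (z₁ t * z₂ t * (1 + z₁ t + z₂ t)) : ℝ) : ℂ) := by
    intro t
    simp only [hN]
    rw [hF₁i, hEi]
    push_cast; ring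
  have hMi : ∀ t : ℝ, M (t * I) = ((z₂ t * (z₁ t * z₂ t * (1 + z₁ t + z₂ t)) : ℝ) : ℂ) := by
    intro t
    simp only [hM]
    rw [hF₂i, hEi]
    push_cast; ring
  have hQip : ∀ t : ℝ, (z₁ t * z₂ t * (1 + z₁ t + z₂ t) : ℝ) ≠ 0 := by
    intro t
    have := hz₁p t
    have := hz₂p t
    positivity
  have hQ0 : Q 0 ≠ 0 := by
    have := hQi 0
    simp only [ofReal_zero, zero_mul] at this
    rw [this]
    exact_mod_cast hQip 0
  have idN : ∀ z, N z * (Q z + N z) = 2 * F₁ z * (Q z) ^ 2 := by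
    have := eq_of_eq_on_imag (fun z => N z * (Q z + N z)) (fun z => 2 * F₁ z * (Q z) ^ 2)
      (by fun_prop) (by fun_prop) (fun t => by
        rw [hNi, hQi, hF₁i]
        push_cast; ring)
    exact fun z => congrFun this z
  have idM : ∀ z, M z * (Q z + M z) = 2 * F₂ z * (Q z) ^ 2 := by
    have := eq_of_eq_on_imag (fun z => M z * (Q z + M z)) (fun z => 2 * F₂ z * (Q z) ^ 2)
      (by fun_prop) (by fun_prop) (fun t => by
        rw [hMi, hQi, hF₂i]
        push_cast; ring)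
    exact fun z => congrFun this z
  obtain ⟨W, hWd, hW⟩ := exists_entire_quotient N Q F₁ hNd hQd hF₁ hQ0 idN
  obtain ⟨V, hVd, hV⟩ := exists_entire_quotient M Q F₂ hMd hQd hF₂ hQ0 idM
  have hWi : ∀ t : ℝ, W (t * I) = (z₁ t : ℂ) := by
    intro t
    have h := hW (t * I)
    rw [hQi, hNi] at h
    have hne : ((z₁ t * z₂ t * (1 + z₁ t + z₂ t) : ℝ) : ℂ) ≠ 0 := by exact_mod_cast hQip t
    apply mul_left_cancel₀ hne
    rw [h]; push_cast; ring
  have hVi : ∀ t : ℝ, V (t * I) = (z₂ t : ℂ) := by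
    intro t
    have h := hV (t * I)
    rw [hQi, hMi] at h
    have hne : ((z₁ t * z₂ t * (1 + z₁ t + z₂ t) : ℝ) : ℂ) ≠ 0 := by exact_mod_cast hQip t
    apply mul_left_cancel₀ hne
    rw [h]; push_cast; ring
  have hWV : ∀ z, W z * V z = E z := by
    have := eq_of_eq_on_imag (fun z => W z * V z) E (by fun_prop) hEd (fun t => by
        rw [hWi, hVi, hEi]; push_cast; ring)
    exact fun z => congrFun this z
  have hWF : ∀ z, W z * (1 + W z) = 2 * F₁ z := by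
    have := eq_of_eq_on_imag (fun z => W z * (1 + W z)) (fun z => 2 * F₁ z)
      (by fun_prop) (by fun_prop) (fun t => by
        rw [hWi, hF₁i]; push_cast; ring)
    exact fun z => congrFun this z
  have hW0 : ∀ z, W z ≠ 0 := by
    intro z hz
    have := hWV z
    rw [hz, zero_mul] at this
    exact Complex.exp_ne_zero _ this.symm
  -- growth of W
  have hgrow : ∀ z, ‖W z‖ ≤ Real.exp (Real.log (2 * C + 2) + A * ‖z‖ ^ 2) := by
    intro z
    rw [Real.exp_add, Real.exp_log (by positivity)]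
    have e1 : ‖W z‖ * ‖1 + W z‖ = 2 * ‖F₁ z‖ := by
      rw [← norm_mul, hWF, norm_mul]; simp
    have e2 : ‖W z‖ - 1 ≤ ‖1 + W z‖ := by
      have := norm_sub_norm_le (W z) (-1)
      simpa [add_comm] using this
    have e3 : ‖F₁ z‖ ≤ C * Real.exp (A * ‖z‖ ^ 2) := by
      refine (hg₁ z).trans ?_
      gcongr C * Real.exp (A * ?_)
      rw [← sq_abs z.re]
      have := abs_re_le_norm z
      gcongr
    have e4 : 1 ≤ Real.exp (A * ‖z‖ ^ 2) := Real.one_le_exp (by positivity)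
    by_cases hw : ‖W z‖ ≤ 2
    · nlinarith
    · push Not at hw
      have e5 : ‖W z‖ * (‖W z‖ - 1) ≤ ‖W z‖ * ‖1 + W z‖ := by gcongr
      nlinarith [norm_nonneg (W z)]
  obtain ⟨c0, c1, c2, hc⟩ := exp_quadratic_of_growth W hWd hW0 _ A hA hgrow
  -- compare on the imaginary axis
  have key : ∀ t : ℝ, s₁ t = -c0.re + t * c1.im + t ^ 2 * c2.re := by
    intro t
    have h := congrArg norm (hc (t * I))
    rw [hWi, Complex.norm_exp] at h
    simp only [hz₁] at h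
    rw [Complex.norm_real, Real.norm_eq_abs, abs_of_pos (Real.exp_pos _)] at h
    have h' := Real.exp_injective h
    simp [pow_two] at h'
    have : s₁ t = -(c0.re - c1.im * t - c2.re * (t * t)) := by linarith
    rw [this]; ring
  have hs0 : s₁ 0 = 0 := by
    have := hs 0
    have h1 := hs₁ 0
    have h2 := hs₂ 0
    simp at this
    linarith
  have hc0 : c0.re = 0 := by
    have := key 0
    rw [hs0] at this
    simp at this
    linarith
  have hb : c1.im = 0 := by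
    set b := c1.im with hb
    set c := c2.re with hcc
    have hp : 0 < |c| + 1 := by positivity
    have h := hs₁ (-b / (|c| + 1))
    rw [key, hc0] at h
    have e : -0 + -b / (|c| + 1) * b + (-b / (|c| + 1)) ^ 2 * c
        = b ^ 2 * (c - |c| - 1) / (|c| + 1) ^ 2 := by
      field_simp; ring
    rw [e] at h
    have h2 : c - |c| - 1 ≤ -1 := by linarith [le_abs_self c]
    by_contra hne
    have hb2 : 0 < b ^ 2 := by positivity
    have : b ^ 2 * (c - |c| - 1) / (|c| + 1) ^ 2 < 0 := by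
      apply div_neg_of_neg_of_pos _ (by positivity)
      nlinarith
    linarith
  refine ⟨c2.re, ?_, fun t => ?_⟩
  · have h := hs₁ 1
    rw [key, hc0, hb] at h
    simpa using h
  · rw [key, hc0, hb]; ring

end ComplexPart

section MeasurePart

open MeasureTheory ProbabilityTheory Filter Topology Set
open scoped ENNReal NNReal

/-- The Gaussian law with characteristic function `exp (-k a t^2)`. -/
noncomputable def gam (a : ℝ) (k : ℕ) : Measure ℝ := gaussianReal 0 (Real.toNNReal (2 * k * a))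

instance (a : ℝ) (k : ℕ) : IsProbabilityMeasure (gam a k) := by
  unfold gam; infer_instance

theorem charFun_gam (a : ℝ) (ha : 0 ≤ a) (k : ℕ) (t : ℝ) :
    charFun (gam a k) t = ((Real.exp (-(a * t ^ 2)) : ℝ) : ℂ) ^ k := by
  have e : ((Real.exp (-(a * t ^ 2)) : ℝ) : ℂ) ^ k = ((Real.exp (k * -(a * t ^ 2)) : ℝ) : ℂ) := by
    rw [← Complex.ofReal_pow, ← Real.exp_nat_mul]
  unfold gam
  rw [charFun_gaussianReal, e, Complex.ofReal_exp]
  rw [Real.coe_toNNReal _ (by positivity)]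
  congr 1
  push_cast; ring

theorem charFun_add_measure (μ ν : Measure ℝ) [IsFiniteMeasure μ] [IsFiniteMeasure ν] (t : ℝ) :
    charFun (μ + ν) t = charFun μ t + charFun ν t := by
  simp only [charFun_eq_integral_innerProbChar]
  exact integral_add_measure (BoundedContinuousFunction.integrable _ _)
    (BoundedContinuousFunction.integrable _ _)

theorem charFun_smul_measure (c : ℝ≥0) (μ : Measure ℝ) (t : ℝ) :
    charFun (c • μ) t = (c : ℂ) * charFun μ t := by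
  simp only [charFun_apply]
  rw [integral_smul_nnreal_measure]
  simp [NNReal.smul_def]

/-- The identity of positive measures obtained by elimination. -/
theorem measure_identity (a : ℝ) (ha : 0 ≤ a) (μ₁ μ₂ : Measure ℝ) [IsProbabilityMeasure μ₁]
    [IsProbabilityMeasure μ₂] (s₁ s₂ : ℝ → ℝ) (hs : ∀ t, s₁ t + s₂ t = a * t ^ 2)
    (h₁ : ∀ t : ℝ, charFun μ₁ t = ((Real.exp (-s₁ t) + Real.exp (-2 * s₁ t)) / 2 : ℝ))
    (h₂ : ∀ t : ℝ, charFun μ₂ t = ((Real.exp (-s₂ t) + Real.exp (-2 * s₂ t)) / 2 : ℝ)) :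
    (16 : ℝ≥0) • ((μ₁ ∗ μ₂) ∗ (μ₁ ∗ μ₂)) + gam a 4 =
      (8 : ℝ≥0) • ((μ₁ ∗ μ₂) ∗ gam a 2) + (4 : ℝ≥0) • ((μ₁ ∗ μ₂) ∗ gam a 1)
        + (2 : ℝ≥0) • (μ₁ ∗ gam a 2) + (2 : ℝ≥0) • (μ₂ ∗ gam a 2) + gam a 3 := by
  apply Measure.ext_of_charFun
  ext t
  simp only [charFun_add_measure, charFun_smul_measure, charFun_conv, charFun_gam a ha, h₁, h₂]
  set z₁ := Real.exp (-s₁ t) with hz₁
  set z₂ := Real.exp (-s₂ t) with hz₂
  have e1 : Real.exp (-2 * s₁ t) = z₁ ^ 2 := by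
    rw [hz₁, ← Real.exp_nat_mul]; congr 1; push_cast; ring
  have e2 : Real.exp (-2 * s₂ t) = z₂ ^ 2 := by
    rw [hz₂, ← Real.exp_nat_mul]; congr 1; push_cast; ring
  have e3 : Real.exp (-(a * t ^ 2)) = z₁ * z₂ := by
    rw [hz₁, hz₂, ← Real.exp_add, ← hs t]; congr 1; ring
  rw [e1, e2, e3]
  push_cast
  ring

/-- Symmetry from a real characteristic function. -/
theorem map_neg_eq (μ : Measure ℝ) [IsProbabilityMeasure μ] (f : ℝ → ℝ)
    (h : ∀ t : ℝ, charFun μ t = (f t : ℂ)) : μ.map (fun x => -x) = μ := by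
  have : IsProbabilityMeasure (μ.map (fun x => -x)) :=
    Measure.isProbabilityMeasure_map (by fun_prop)
  apply Measure.ext_of_charFun
  ext t
  have : charFun (μ.map (fun x => -x)) t = charFun μ (-t) := by
    have := charFun_map_mul (μ := μ) (-1) t
    simpa using this
  rw [this, charFun_neg, h t, Complex.conj_ofReal]

/-- Tilt. -/
noncomputable def ex (y x : ℝ) : ℝ≥0∞ := ENNReal.ofReal (Real.exp (y * x))

/-- Truncated weight. -/
noncomputable def wt (y δ N x : ℝ) : ℝ≥0∞ := ENNReal.ofReal (Real.exp (y * x + δ * min |x| N))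

theorem measurable_ex (y : ℝ) : Measurable (ex y) := by unfold ex; fun_prop

theorem measurable_wt (y δ N : ℝ) : Measurable (wt y δ N) := by unfold wt; fun_prop

theorem wt_add_le (y δ N : ℝ) (hδ : 0 ≤ δ) (hN : 0 ≤ N) (u v : ℝ) :
    wt y δ N (u + v) ≤ wt y δ N u * wt y δ N v := by
  unfold wt
  rw [← ENNReal.ofReal_mul (Real.exp_pos _).le, ← Real.exp_add]
  apply ENNReal.ofReal_le_ofReal
  apply Real.exp_le_exp.mpr
  have h1 : min |u + v| N ≤ min |u| N + min |v| N := by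
    rcases le_total |u| N with h | h <;> rcases le_total |v| N with h' | h'
    · rw [min_eq_left h, min_eq_left h']
      exact (min_le_left _ _).trans (abs_add_le u v)
    · rw [min_eq_left h, min_eq_right h']
      have := min_le_right |u + v| N
      have := abs_nonneg u
      linarith
    · rw [min_eq_right h, min_eq_left h']
      have := min_le_right |u + v| N
      have := abs_nonneg v
      linarith
    · rw [min_eq_right h, min_eq_right h']
      have := min_le_right |u + v| N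
      linarith
  nlinarith [mul_le_mul_of_nonneg_left h1 hδ]

theorem ex_mul_wt_le (y δ N M : ℝ) (hδ : 0 ≤ δ) (u v : ℝ) (hv : |v| ≤ M) :
    wt y δ N u * ex y v ≤ ENNReal.ofReal (Real.exp (δ * M)) * wt y δ N (u + v) := by
  unfold wt ex
  rw [← ENNReal.ofReal_mul (Real.exp_pos _).le, ← ENNReal.ofReal_mul (Real.exp_pos _).le,
    ← Real.exp_add, ← Real.exp_add]
  apply ENNReal.ofReal_le_ofReal
  apply Real.exp_le_exp.mpr
  have h0 : |u| ≤ |u + v| + |v| := by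
    have := abs_sub (u + v) v
    simpa using this
  have hM : 0 ≤ M := (abs_nonneg v).trans hv
  have h1 : min |u| N ≤ min |u + v| N + M := by
    rcases le_total |u + v| N with h | h
    · rw [min_eq_left h]
      exact (min_le_left _ _).trans (by linarith)
    · rw [min_eq_right h]
      have := min_le_right |u| N
      linarith
  nlinarith [mul_le_mul_of_nonneg_left h1 hδ]

theorem conv_wt_le (A B : Measure ℝ) [SFinite A] [SFinite B] (y δ N : ℝ) (hδ : 0 ≤ δ)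
    (hN : 0 ≤ N) :
    ∫⁻ x, wt y δ N x ∂(A ∗ B) ≤ (∫⁻ x, wt y δ N x ∂A) * ∫⁻ x, wt y δ N x ∂B := by
  rw [Measure.lintegral_conv (measurable_wt y δ N)]
  calc ∫⁻ x, ∫⁻ v, wt y δ N (x + v) ∂B ∂A
      ≤ ∫⁻ x, ∫⁻ v, wt y δ N x * wt y δ N v ∂B ∂A :=
        lintegral_mono fun x => lintegral_mono fun v => wt_add_le y δ N hδ hN x v
    _ = (∫⁻ x, wt y δ N x ∂A) * ∫⁻ x, wt y δ N x ∂B := by
        simp_rw [lintegral_const_mul _ (measurable_wt y δ N)]
        rw [lintegral_mul_const _ (measurable_wt y δ N)]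

theorem conv_ex (A B : Measure ℝ) [SFinite A] [SFinite B] (y : ℝ) :
    ∫⁻ x, ex y x ∂(A ∗ B) = (∫⁻ x, ex y x ∂A) * ∫⁻ x, ex y x ∂B := by
  rw [Measure.lintegral_conv (measurable_ex y)]
  have : ∀ x v, ex y (x + v) = ex y x * ex y v := by
    intro x v
    unfold ex
    rw [← ENNReal.ofReal_mul (Real.exp_pos _).le, ← Real.exp_add]
    congr 2; ring
  simp_rw [this, lintegral_const_mul _ (measurable_ex y)]
  rw [lintegral_mul_const _ (measurable_ex y)]

theorem wt_le_on (y δ N M : ℝ) (hδ : 0 ≤ δ) (x : ℝ) (hx : |x| ≤ M) :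
    wt y δ N x ≤ ENNReal.ofReal (Real.exp (δ * M)) * ex y x := by
  unfold wt ex
  rw [← ENNReal.ofReal_mul (Real.exp_pos _).le, ← Real.exp_add]
  apply ENNReal.ofReal_le_ofReal
  apply Real.exp_le_exp.mpr
  have : min |x| N ≤ M := (min_le_left _ _).trans hx
  nlinarith [mul_le_mul_of_nonneg_left this hδ]

theorem lintegral_wt_le_split (A : Measure ℝ) (y δ N M : ℝ) (hδ : 0 ≤ δ) :
    ∫⁻ x, wt y δ N x ∂A ≤ ENNReal.ofReal (Real.exp (δ * M)) * (∫⁻ x, ex y x ∂A) +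
      ∫⁻ x in (Icc (-M) M)ᶜ, wt y δ N x ∂A := by
  rw [← lintegral_add_compl _ (measurableSet_Icc (a := -M) (b := M))]
  gcongr
  calc ∫⁻ x in Icc (-M) M, wt y δ N x ∂A
      ≤ ∫⁻ x in Icc (-M) M, ENNReal.ofReal (Real.exp (δ * M)) * ex y x ∂A := by
        apply setLIntegral_mono (by have := measurable_ex y; fun_prop)
        intro x hx
        exact wt_le_on y δ N M hδ x (abs_le.mpr hx)
    _ ≤ ∫⁻ x, ENNReal.ofReal (Real.exp (δ * M)) * ex y x ∂A := setLIntegral_le_lintegral _ _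
    _ = _ := lintegral_const_mul _ (measurable_ex y)

theorem conv_wt_ge (A B : Measure ℝ) [SFinite A] [SFinite B] (y δ N M : ℝ) (hδ : 0 ≤ δ) :
    (∫⁻ x in Icc (-M) M, ex y x ∂B) * (∫⁻ x, wt y δ N x ∂A) +
      (∫⁻ x in Icc (-M) M, ex y x ∂A) * (∫⁻ x, wt y δ N x ∂B) ≤
    2 * (ENNReal.ofReal (Real.exp (δ * M)) * ((∫⁻ x, ex y x ∂A) * (∫⁻ x, ex y x ∂B))) +
      ENNReal.ofReal (Real.exp (δ * M)) * ∫⁻ x, wt y δ N x ∂(A ∗ B) := by
  set S := Icc (-M) M with hS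
  have hSm : MeasurableSet S := measurableSet_Icc
  set K := ENNReal.ofReal (Real.exp (δ * M)) with hK
  -- main part
  have main : (∫⁻ x in S, ex y x ∂B) * (∫⁻ x in Sᶜ, wt y δ N x ∂A) +
      (∫⁻ x in S, ex y x ∂A) * (∫⁻ x in Sᶜ, wt y δ N x ∂B) ≤
      K * ∫⁻ x, wt y δ N x ∂(A ∗ B) := by
    rw [Measure.lintegral_conv (measurable_wt y δ N)]
    have hw := measurable_wt y δ N
    have he := measurable_ex y
    have hpt : ∀ x v, Sᶜ.indicator (wt y δ N) x * S.indicator (ex y) v +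
        S.indicator (ex y) x * Sᶜ.indicator (wt y δ N) v ≤ K * wt y δ N (x + v) := by
      intro x v
      by_cases hx : x ∈ S <;> by_cases hv : v ∈ S
      · simp [hx, hv]
      · have hx' : |x| ≤ M := abs_le.mpr hx
        have := ex_mul_wt_le y δ N M hδ v x hx'
        simp [hx, hv]
        rw [add_comm x v, mul_comm]
        exact this
      · have hv' : |v| ≤ M := abs_le.mpr hv
        have := ex_mul_wt_le y δ N M hδ x v hv'
        simp [hx, hv]
        exact this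
      · simp [hx, hv]
    have hI1 : Measurable (S.indicator (ex y)) := he.indicator hSm
    have hI2 : Measurable (Sᶜ.indicator (wt y δ N)) := hw.indicator hSm.compl
    calc (∫⁻ x in S, ex y x ∂B) * (∫⁻ x in Sᶜ, wt y δ N x ∂A) +
          (∫⁻ x in S, ex y x ∂A) * (∫⁻ x in Sᶜ, wt y δ N x ∂B)
        = ∫⁻ x, ∫⁻ v, (Sᶜ.indicator (wt y δ N) x * S.indicator (ex y) v +
            S.indicator (ex y) x * Sᶜ.indicator (wt y δ N) v) ∂B ∂A := by
          have inner : ∀ x, ∫⁻ v, (Sᶜ.indicator (wt y δ N) x * S.indicator (ex y) v +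
            S.indicator (ex y) x * Sᶜ.indicator (wt y δ N) v) ∂B =
              Sᶜ.indicator (wt y δ N) x * (∫⁻ v, S.indicator (ex y) v ∂B) +
              S.indicator (ex y) x * (∫⁻ v, Sᶜ.indicator (wt y δ N) v ∂B) := by
            intro x
            rw [lintegral_add_left (hI1.const_mul _), lintegral_const_mul _ hI1,
              lintegral_const_mul _ hI2]
          simp_rw [inner]
          rw [lintegral_add_left (hI2.mul_const _), lintegral_mul_const _ hI2,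
            lintegral_mul_const _ hI1, lintegral_indicator hSm, lintegral_indicator hSm.compl,
            lintegral_indicator hSm, lintegral_indicator hSm.compl]
          ring
      _ ≤ ∫⁻ x, ∫⁻ v, K * wt y δ N (x + v) ∂B ∂A :=
          lintegral_mono fun x => lintegral_mono fun v => hpt x v
      _ = K * ∫⁻ x, ∫⁻ v, wt y δ N (x + v) ∂B ∂A := by
          have : ∀ x, ∫⁻ v, K * wt y δ N (x + v) ∂B = K * ∫⁻ v, wt y δ N (x + v) ∂B := by
            intro x
            exact lintegral_const_mul _ (hw.comp (measurable_const_add x))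
          simp_rw [this]
          apply lintegral_const_mul
          apply Measurable.lintegral_prod_right'
            (f := fun p : ℝ × ℝ => wt y δ N (p.1 + p.2))
          exact hw.comp measurable_add
  have hA := lintegral_wt_le_split A y δ N M hδ
  have hB := lintegral_wt_le_split B y δ N M hδ
  have hAe : (∫⁻ x in S, ex y x ∂A) ≤ ∫⁻ x, ex y x ∂A := setLIntegral_le_lintegral _ _
  have hBe : (∫⁻ x in S, ex y x ∂B) ≤ ∫⁻ x, ex y x ∂B := setLIntegral_le_lintegral _ _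
  calc (∫⁻ x in S, ex y x ∂B) * (∫⁻ x, wt y δ N x ∂A) +
      (∫⁻ x in S, ex y x ∂A) * (∫⁻ x, wt y δ N x ∂B)
      ≤ (∫⁻ x in S, ex y x ∂B) * (K * (∫⁻ x, ex y x ∂A) + ∫⁻ x in Sᶜ, wt y δ N x ∂A) +
      (∫⁻ x in S, ex y x ∂A) * (K * (∫⁻ x, ex y x ∂B) + ∫⁻ x in Sᶜ, wt y δ N x ∂B) := by
        gcongr
    _ = ((∫⁻ x in S, ex y x ∂B) * (K * (∫⁻ x, ex y x ∂A)) +
        (∫⁻ x in S, ex y x ∂A) * (K * (∫⁻ x, ex y x ∂B))) +
        ((∫⁻ x in S, ex y x ∂B) * (∫⁻ x in Sᶜ, wt y δ N x ∂A) +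
      (∫⁻ x in S, ex y x ∂A) * (∫⁻ x in Sᶜ, wt y δ N x ∂B)) := by ring
    _ ≤ ((∫⁻ x, ex y x ∂B) * (K * (∫⁻ x, ex y x ∂A)) +
        (∫⁻ x, ex y x ∂A) * (K * (∫⁻ x, ex y x ∂B))) +
        K * ∫⁻ x, wt y δ N x ∂(A ∗ B) := by
        gcongr
    _ = _ := by ring

/-- Numeric consequences of the identity of moment generating functions. -/
theorem numeric_key (h₁ h₂ E : ℝ) (hh₁ : 1 ≤ h₁) (hh₂ : 1 ≤ h₂) (hE : 1 ≤ E)
    (hQ : 0 < 4 * (h₁ * h₂) - E ^ 2)
    (hid : 16 * (h₁ * h₂) ^ 2 + E ^ 4 = 8 * ((h₁ * h₂) * E ^ 2) + 4 * ((h₁ * h₂) * E)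
      + 2 * (h₁ * E ^ 2) + 2 * (h₂ * E ^ 2) + E ^ 3) :
    2 * E ^ 2 < (32 * (h₁ * h₂) - 8 * E ^ 2 - 4 * E) * h₂ ∧ h₁ * h₂ ≤ 5 / 4 * E ^ 2 := by
  set Q := 4 * (h₁ * h₂) - E ^ 2 with hQd
  have hQ2 : Q ^ 2 = E * (2 * h₁ + E) * (2 * h₂ + E) := by
    rw [hQd]; linear_combination hid
  have hE0 : 0 < E := by linarith
  have hh10 : 0 < h₁ := by linarith
  have hh20 : 0 < h₂ := by linarith
  -- Q ≥ 2.8 E
  have hA : (2.8 * E) ^ 2 ≤ Q ^ 2 := by
    rw [hQ2]
    have e1 : (2 + E) * (2 + E) ≤ (2 * h₁ + E) * (2 * h₂ + E) := by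
      apply mul_le_mul <;> nlinarith
    have e2 : E * ((2 + E) * (2 + E)) ≤ E * ((2 * h₁ + E) * (2 * h₂ + E)) := by gcongr
    nlinarith [mul_nonneg hE0.le (sq_nonneg (E - 2))]
  have hA' : 2.8 * E ≤ Q := le_of_sq_le_sq hA hQ.le
  -- Q h₂ ≥ 0.7 E^2
  have hB : (0.7 * E ^ 2) ^ 2 ≤ (Q * h₂) ^ 2 := by
    have e1 : 2 * E ^ 2 * h₁ ≤ Q ^ 2 := by
      rw [hQ2]
      have : E * (2 * h₁) * E ≤ E * (2 * h₁ + E) * (2 * h₂ + E) := by
        gcongr <;> linarith
      nlinarith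
    have e2 : E ^ 2 ≤ 4 * (h₁ * h₂) := by linarith
    have e3 : 2 * E ^ 2 * h₁ * h₂ ^ 2 ≤ Q ^ 2 * h₂ ^ 2 := by gcongr
    have e4 : E ^ 2 * h₂ * E ^ 2 ≤ E ^ 2 * h₂ * (4 * (h₁ * h₂)) := by gcongr
    have e5 : E ^ 2 * E ^ 2 * 1 ≤ E ^ 2 * E ^ 2 * h₂ := by gcongr
    have hE4 : 0 ≤ E ^ 2 * E ^ 2 := by positivity
    nlinarith
  have hB' : 0.7 * E ^ 2 ≤ Q * h₂ := le_of_sq_le_sq hB (by positivity)
  constructor
  · have e1 : (32 * (h₁ * h₂) - 8 * E ^ 2 - 4 * E) = 8 * Q - 4 * E := by rw [hQd]; ring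
    rw [e1]
    have e2 : E * h₂ ≤ Q * h₂ / 2.8 := by
      rw [le_div_iff₀ (by norm_num)]
      nlinarith [mul_le_mul_of_nonneg_right hA' hh20.le]
    have : 0 < E ^ 2 := by positivity
    have e3 : Q * h₂ / 2.8 ≤ Q * h₂ / 2 := by
      apply div_le_div_of_nonneg_left (by positivity) <;> norm_num
    nlinarith
  · by_contra hcon
    push Not at hcon
    have hQ4 : 4 * E ^ 2 < Q := by rw [hQd]; linarith
    have hsum : h₁ + h₂ ≤ 1 + h₁ * h₂ := by nlinarith
    have e1 : Q ^ 2 = E * (Q + 2 * E ^ 2 + 2 * E * (h₁ + h₂)) := by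
      rw [hQ2, hQd]; ring
    have e2 : h₁ + h₂ ≤ 1 + (Q + E ^ 2) / 4 := by
      have : h₁ * h₂ = (Q + E ^ 2) / 4 := by rw [hQd]; ring
      linarith
    have e3 : Q ^ 2 ≤ E * (Q + 2 * E ^ 2 + 2 * E * (1 + (Q + E ^ 2) / 4)) := by
      rw [e1]; gcongr
    have hE2 : E ≤ E ^ 2 := by nlinarith
    have hE21 : 1 ≤ E ^ 2 := by nlinarith
    have t1 : E * Q ≤ E ^ 2 * Q := by gcongr
    have t2 : E ^ 3 ≤ E ^ 4 := by
      have : E ^ 3 * 1 ≤ E ^ 3 * E := by gcongr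
      nlinarith
    have t3 : E ^ 2 ≤ E ^ 4 := by
      have : E ^ 2 * 1 ≤ E ^ 2 * E ^ 2 := by gcongr
      nlinarith
    have t4 : E ^ 2 * (4 * E ^ 2) ≤ E ^ 2 * Q := by gcongr
    have t5 : 4 * E ^ 2 * Q ≤ Q * Q := by gcongr
    have t6 : 0 < E ^ 2 * Q := by positivity
    nlinarith

/-- The measure identity as a hypothesis bundle. -/
def MId (a : ℝ) (μ₁ μ₂ : Measure ℝ) : Prop :=
    (16 : ℝ≥0) • ((μ₁ ∗ μ₂) ∗ (μ₁ ∗ μ₂)) + gam a 4 =
      (8 : ℝ≥0) • ((μ₁ ∗ μ₂) ∗ gam a 2) + (4 : ℝ≥0) • ((μ₁ ∗ μ₂) ∗ gam a 1)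
        + (2 : ℝ≥0) • (μ₁ ∗ gam a 2) + (2 : ℝ≥0) • (μ₂ ∗ gam a 2) + gam a 3

theorem lintegral_identity {a : ℝ} {μ₁ μ₂ : Measure ℝ} (h : MId a μ₁ μ₂) (φ : ℝ → ℝ≥0∞) :
    16 * (∫⁻ x, φ x ∂((μ₁ ∗ μ₂) ∗ (μ₁ ∗ μ₂))) + ∫⁻ x, φ x ∂(gam a 4) =
      8 * (∫⁻ x, φ x ∂((μ₁ ∗ μ₂) ∗ gam a 2)) + 4 * (∫⁻ x, φ x ∂((μ₁ ∗ μ₂) ∗ gam a 1))
      + 2 * (∫⁻ x, φ x ∂(μ₁ ∗ gam a 2)) + 2 * (∫⁻ x, φ x ∂(μ₂ ∗ gam a 2))
      + ∫⁻ x, φ x ∂(gam a 3) := by
  have := congrArg (fun m : Measure ℝ => ∫⁻ x, φ x ∂m) h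
  simp only [lintegral_add_measure, lintegral_smul_measure, ENNReal.smul_def] at this
  simpa using this

theorem lintegral_ex_gam (a : ℝ) (ha : 0 ≤ a) (k : ℕ) (y : ℝ) :
    ∫⁻ x, ex y x ∂(gam a k) = ENNReal.ofReal (Real.exp (k * (a * y ^ 2))) := by
  have h1 : mgf id (gam a k) y = Real.exp (k * (a * y ^ 2)) := by
    unfold gam
    rw [mgf_id_gaussianReal]
    simp only [zero_mul, zero_add]
    rw [Real.coe_toNNReal _ (by positivity)]
    congr 1; ring
  have h2 : Integrable (fun x => Real.exp (y * x)) (gam a k) := by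
    unfold gam
    exact integrable_exp_mul_gaussianReal y
  unfold ex
  rw [← ofReal_integral_eq_lintegral_ofReal h2 (ae_of_all _ fun x => (Real.exp_pos _).le), ← h1]
  rfl

theorem lintegral_wt_gam_le (a : ℝ) (ha : 0 ≤ a) (k : ℕ) (y δ N : ℝ) (hδ : 0 ≤ δ) (hδ1 : δ ≤ 1)
    (hN : 0 ≤ N) :
    ∫⁻ x, wt y δ N x ∂(gam a k) ≤ ENNReal.ofReal (Real.exp (k * (a * y ^ 2)) +
      δ * (Real.exp (k * (a * (y + 2) ^ 2)) + Real.exp (k * (a * (y - 2) ^ 2)))) := by
  have hpt : ∀ x, wt y δ N x ≤ ex y x + ENNReal.ofReal δ * (ex (y + 2) x + ex (y - 2) x) := by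
    intro x
    unfold wt ex
    rw [← ENNReal.ofReal_add (Real.exp_pos _).le (Real.exp_pos _).le,
      ← ENNReal.ofReal_mul hδ, ← ENNReal.ofReal_add (Real.exp_pos _).le (by positivity)]
    apply ENNReal.ofReal_le_ofReal
    set m := min |x| N with hm
    have hm0 : 0 ≤ m := le_min (abs_nonneg x) hN
    have hmx : m ≤ |x| := min_le_left _ _
    have h1 : Real.exp (δ * m) ≤ 1 + δ * Real.exp (2 * |x|) := by
      -- exp u ≤ 1 + u exp u
      have e1 : Real.exp (δ * m) ≤ 1 + δ * m * Real.exp (δ * m) := by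
        have := Real.add_one_le_exp (-(δ * m))
        have h2 : (1 - δ * m) * Real.exp (δ * m) ≤ Real.exp (-(δ * m)) * Real.exp (δ * m) := by
          apply mul_le_mul_of_nonneg_right _ (Real.exp_pos _).le
          linarith
        rw [← Real.exp_add] at h2
        simp at h2
        nlinarith
      have e2 : m ≤ Real.exp m := by linarith [Real.add_one_le_exp m]
      have e3 : Real.exp (δ * m) ≤ Real.exp |x| := by
        apply Real.exp_le_exp.mpr
        nlinarith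
      have e4 : Real.exp m ≤ Real.exp |x| := Real.exp_le_exp.mpr hmx
      have e5 : m * Real.exp (δ * m) ≤ Real.exp |x| * Real.exp |x| := by
        apply mul_le_mul (e2.trans e4) e3 (Real.exp_pos _).le (Real.exp_pos _).le
      rw [← Real.exp_add] at e5
      have e6 : |x| + |x| = 2 * |x| := by ring
      rw [e6] at e5
      nlinarith
    have h2 : Real.exp (2 * |x|) ≤ Real.exp (2 * x) + Real.exp (-(2 * x)) := by
      rcases abs_cases x with ⟨h, _⟩ | ⟨h, _⟩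
      · rw [h]; linarith [Real.exp_pos (-(2 * x))]
      · rw [h]
        have : 2 * -x = -(2 * x) := by ring
        rw [this]; linarith [Real.exp_pos (2 * x)]
    have h3 : Real.exp ((y + 2) * x) = Real.exp (y * x) * Real.exp (2 * x) := by
      rw [← Real.exp_add]; congr 1; ring
    have h4 : Real.exp ((y - 2) * x) = Real.exp (y * x) * Real.exp (-(2 * x)) := by
      rw [← Real.exp_add]; congr 1; ring
    rw [Real.exp_add, h3, h4]
    have hy := Real.exp_pos (y * x)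
    calc Real.exp (y * x) * Real.exp (δ * m)
        ≤ Real.exp (y * x) * (1 + δ * (Real.exp (2 * x) + Real.exp (-(2 * x)))) := by
          gcongr
          refine h1.trans ?_
          gcongr
      _ = _ := by ring
  calc ∫⁻ x, wt y δ N x ∂(gam a k)
      ≤ ∫⁻ x, (ex y x + ENNReal.ofReal δ * (ex (y + 2) x + ex (y - 2) x)) ∂(gam a k) :=
        lintegral_mono hpt
    _ = _ := by
      have m1 := measurable_ex y
      have m2 := measurable_ex (y + 2)
      have m3 := measurable_ex (y - 2)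
      rw [lintegral_add_left m1, lintegral_const_mul _ (by fun_prop), lintegral_add_left m2,
        lintegral_ex_gam a ha, lintegral_ex_gam a ha, lintegral_ex_gam a ha,
        ← ENNReal.ofReal_add (Real.exp_pos _).le (Real.exp_pos _).le,
        ← ENNReal.ofReal_mul hδ, ← ENNReal.ofReal_add (Real.exp_pos _).le (by positivity)]

/-- The set of `y ≥ 0` with finite exponential moments. -/
def Fin2 (μ₁ μ₂ : Measure ℝ) (y : ℝ) : Prop :=
  (∫⁻ x, ex y x ∂μ₁) < ∞ ∧ (∫⁻ x, ex y x ∂μ₂) < ∞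

theorem one_le_L (μ : Measure ℝ) [IsProbabilityMeasure μ] (hsym : μ.map (fun x => -x) = μ)
    (y : ℝ) : 1 ≤ ∫⁻ x, ex y x ∂μ := by
  have h1 : ∫⁻ x, ex y x ∂μ = ∫⁻ x, ex y (-x) ∂μ := by
    conv_lhs => rw [← hsym]
    rw [lintegral_map (measurable_ex y) measurable_neg]
  have h2 : (2 : ℝ≥0∞) ≤ ∫⁻ x, ex y x ∂μ + ∫⁻ x, ex y x ∂μ := by
    conv_rhs => rw [h1]
    conv_rhs => rw [← h1, h1]
    nth_rewrite 1 [← h1]
    rw [← lintegral_add_left (measurable_ex y)]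
    calc (2 : ℝ≥0∞) = ∫⁻ x, 2 ∂μ := by simp
      _ ≤ _ := by
        apply lintegral_mono
        intro x
        show (2 : ℝ≥0∞) ≤ ex y x + ex y (-x)
        unfold ex
        rw [← ENNReal.ofReal_add (Real.exp_pos _).le (Real.exp_pos _).le]
        have : (2 : ℝ≥0∞) = ENNReal.ofReal 2 := by simp
        rw [this]
        apply ENNReal.ofReal_le_ofReal
        have e1 := Real.add_one_le_exp (y * x)
        have e2 := Real.add_one_le_exp (y * -x)
        linarith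
  rw [← two_mul] at h2
  have h3 : (2 : ℝ≥0∞) * 1 ≤ 2 * ∫⁻ x, ex y x ∂μ := by simpa using h2
  exact (ENNReal.mul_le_mul_iff_right (by norm_num) (by norm_num)).mp h3

/-- Real identity for the moment generating functions. -/
theorem real_identity {a : ℝ} (ha : 0 ≤ a) {μ₁ μ₂ : Measure ℝ} [IsProbabilityMeasure μ₁]
    [IsProbabilityMeasure μ₂] (h : MId a μ₁ μ₂) {y : ℝ} (hy : Fin2 μ₁ μ₂ y) :
    let h₁ := (∫⁻ x, ex y x ∂μ₁).toReal
    let h₂ := (∫⁻ x, ex y x ∂μ₂).toReal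
    let E := Real.exp (a * y ^ 2)
    16 * (h₁ * h₂) ^ 2 + E ^ 4 = 8 * ((h₁ * h₂) * E ^ 2) + 4 * ((h₁ * h₂) * E)
      + 2 * (h₁ * E ^ 2) + 2 * (h₂ * E ^ 2) + E ^ 3 := by
  intro h₁ h₂ E
  have hid := lintegral_identity h (ex y)
  simp only [conv_ex, lintegral_ex_gam a ha] at hid
  have e₁ : ∫⁻ x, ex y x ∂μ₁ = ENNReal.ofReal h₁ := (ENNReal.ofReal_toReal hy.1.ne).symm
  have e₂ : ∫⁻ x, ex y x ∂μ₂ = ENNReal.ofReal h₂ := (ENNReal.ofReal_toReal hy.2.ne).symm
  have p₁ : 0 ≤ h₁ := ENNReal.toReal_nonneg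
  have p₂ : 0 ≤ h₂ := ENNReal.toReal_nonneg
  have pE : 0 < E := Real.exp_pos _
  have eE : ∀ k : ℕ, Real.exp (k * (a * y ^ 2)) = E ^ k := fun k => by
    rw [Real.exp_nat_mul]
  rw [e₁, e₂, eE, eE, eE, eE] at hid
  have n16 : (16 : ℝ≥0∞) = ENNReal.ofReal 16 := by simp
  have n8 : (8 : ℝ≥0∞) = ENNReal.ofReal 8 := by simp
  have n4 : (4 : ℝ≥0∞) = ENNReal.ofReal 4 := by simp
  have n2 : (2 : ℝ≥0∞) = ENNReal.ofReal 2 := by simp
  rw [n16, n8, n4, n2] at hid
  rw [← ENNReal.ofReal_mul p₁, ← ENNReal.ofReal_mul (by positivity),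
    ← ENNReal.ofReal_mul (by positivity), ← ENNReal.ofReal_mul (by positivity),
    ← ENNReal.ofReal_mul (by positivity), ← ENNReal.ofReal_mul (by positivity),
    ← ENNReal.ofReal_mul (by positivity), ← ENNReal.ofReal_mul (by positivity),
    ← ENNReal.ofReal_mul (by positivity), ← ENNReal.ofReal_mul (by positivity),
    ← ENNReal.ofReal_mul (by positivity),
    ← ENNReal.ofReal_add (by positivity) (by positivity),
    ← ENNReal.ofReal_add (by positivity) (by positivity),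
    ← ENNReal.ofReal_add (by positivity) (by positivity),
    ← ENNReal.ofReal_add (by positivity) (by positivity),
    ← ENNReal.ofReal_add (by positivity) (by positivity),
    ENNReal.ofReal_eq_ofReal_iff (by positivity) (by positivity)] at hid
  linear_combination hid

/-! ### Continuity and positivity -/

theorem L_mono_fin {μ : Measure ℝ} [IsProbabilityMeasure μ] {y : ℝ}
    {t : ℝ} (h0 : 0 ≤ t) (hty : t ≤ y) :
    (∫⁻ x, ex t x ∂μ) ≤ 1 + ∫⁻ x, ex y x ∂μ := by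
  calc ∫⁻ x, ex t x ∂μ ≤ ∫⁻ x, (1 + ex y x) ∂μ := by
        apply lintegral_mono
        intro x
        show ex t x ≤ 1 + ex y x
        unfold ex
        rw [← ENNReal.ofReal_one, ← ENNReal.ofReal_add (by norm_num) (Real.exp_pos _).le]
        apply ENNReal.ofReal_le_ofReal
        rcases le_total 0 x with hx | hx
        · have : Real.exp (t * x) ≤ Real.exp (y * x) := by
            apply Real.exp_le_exp.mpr; gcongr
          linarith
        · have : Real.exp (t * x) ≤ 1 := by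
            rw [Real.exp_le_one_iff]
            exact mul_nonpos_of_nonneg_of_nonpos h0 hx
          linarith [Real.exp_pos (y * x)]
    _ = 1 + ∫⁻ x, ex y x ∂μ := by
        rw [lintegral_add_left measurable_const]; simp

theorem continuousOn_L {μ : Measure ℝ} [IsProbabilityMeasure μ] {y : ℝ}
    (hy : (∫⁻ x, ex y x ∂μ) < ∞) :
    ContinuousOn (fun t => (∫⁻ x, ex t x ∂μ).toReal) (Icc 0 y) := by
  have hint : Integrable (fun x => Real.exp (y * x)) μ := by
    refine ⟨by fun_prop, ?_⟩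
    rw [hasFiniteIntegral_iff_ofReal (ae_of_all _ fun x => (Real.exp_pos _).le)]
    exact hy
  have heq : ∀ t, (∫⁻ x, ex t x ∂μ).toReal = ∫ x, Real.exp (t * x) ∂μ := by
    intro t
    rw [integral_eq_lintegral_of_nonneg_ae (ae_of_all _ fun x => (Real.exp_pos _).le)
      (by fun_prop)]
    rfl
  simp_rw [heq]
  apply continuousOn_of_dominated (bound := fun x => 1 + Real.exp (y * x))
  · intro t _; fun_prop
  · intro t ht
    apply ae_of_all
    intro x
    rw [Real.norm_eq_abs, abs_of_pos (Real.exp_pos _)]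
    rcases le_total 0 x with hx | hx
    · have : Real.exp (t * x) ≤ Real.exp (y * x) := by
        apply Real.exp_le_exp.mpr
        have := ht.2
        gcongr
      linarith
    · have : Real.exp (t * x) ≤ 1 := by
        rw [Real.exp_le_one_iff]
        exact mul_nonpos_of_nonneg_of_nonpos ht.1 hx
      linarith [Real.exp_pos (y * x)]
  · exact (integrable_const 1).add hint
  · apply ae_of_all
    intro x
    fun_prop

theorem Q_pos {a : ℝ} (ha : 0 ≤ a) {μ₁ μ₂ : Measure ℝ} [IsProbabilityMeasure μ₁]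
    [IsProbabilityMeasure μ₂] (h : MId a μ₁ μ₂) {y : ℝ} (hy0 : 0 ≤ y) (hy : Fin2 μ₁ μ₂ y) :
    0 < 4 * ((∫⁻ x, ex y x ∂μ₁).toReal * (∫⁻ x, ex y x ∂μ₂).toReal)
      - (Real.exp (a * y ^ 2)) ^ 2 := by
  set q : ℝ → ℝ := fun t => 4 * ((∫⁻ x, ex t x ∂μ₁).toReal * (∫⁻ x, ex t x ∂μ₂).toReal)
      - (Real.exp (a * t ^ 2)) ^ 2 with hq
  have hcont : ContinuousOn q (Icc 0 y) := by
    apply ContinuousOn.sub
    · exact ((continuousOn_L hy.1).mul (continuousOn_L hy.2)).const_smul (4 : ℝ)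
    · fun_prop
  have hq0 : q 0 = 3 := by
    simp [hq, ex]; norm_num
  by_contra hcon
  have hqy : q y ≤ 0 := not_lt.mp hcon
  have : (0 : ℝ) ∈ q '' (Icc 0 y) := by
    apply intermediate_value_Icc' hy0 hcont
    exact ⟨hqy, by rw [hq0]; norm_num⟩
  obtain ⟨t, ht, hqt⟩ := this
  have hfin : Fin2 μ₁ μ₂ t :=
    ⟨(L_mono_fin ht.1 ht.2).trans_lt (by simp [hy.1]),
      (L_mono_fin ht.1 ht.2).trans_lt (by simp [hy.2])⟩
  have hid := real_identity ha h hfin
  simp only at hid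
  set h₁ := (∫⁻ x, ex t x ∂μ₁).toReal with hh₁
  set h₂ := (∫⁻ x, ex t x ∂μ₂).toReal with hh₂
  set E := Real.exp (a * t ^ 2) with hE
  have hE0 : 0 < E := Real.exp_pos _
  have hh₁0 : 0 ≤ h₁ := ENNReal.toReal_nonneg
  have hh₂0 : 0 ≤ h₂ := ENNReal.toReal_nonneg
  have hqt' : 4 * (h₁ * h₂) - E ^ 2 = 0 := hqt
  have : (4 * (h₁ * h₂) - E ^ 2) ^ 2 = E * (2 * h₁ + E) * (2 * h₂ + E) := by
    linear_combination hid
  rw [hqt'] at this
  have hp : 0 < E * (2 * h₁ + E) * (2 * h₂ + E) := by positivity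
  rw [← this] at hp
  norm_num at hp

/-- Bound for the exponential moments. -/
theorem L_bound {a : ℝ} (ha : 0 ≤ a) {μ₁ μ₂ : Measure ℝ} [IsProbabilityMeasure μ₁]
    [IsProbabilityMeasure μ₂] (hs₁ : μ₁.map (fun x => -x) = μ₁) (hs₂ : μ₂.map (fun x => -x) = μ₂)
    (h : MId a μ₁ μ₂) {y : ℝ} (hy0 : 0 ≤ y) (hy : Fin2 μ₁ μ₂ y) :
    1 ≤ (∫⁻ x, ex y x ∂μ₁).toReal ∧ 1 ≤ (∫⁻ x, ex y x ∂μ₂).toReal ∧
    2 * (Real.exp (a * y ^ 2)) ^ 2 <
      (32 * ((∫⁻ x, ex y x ∂μ₁).toReal * (∫⁻ x, ex y x ∂μ₂).toReal)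
        - 8 * (Real.exp (a * y ^ 2)) ^ 2 - 4 * (Real.exp (a * y ^ 2))) *
        (min (∫⁻ x, ex y x ∂μ₁).toReal (∫⁻ x, ex y x ∂μ₂).toReal) ∧
    (∫⁻ x, ex y x ∂μ₁).toReal * (∫⁻ x, ex y x ∂μ₂).toReal ≤
      5 / 4 * (Real.exp (a * y ^ 2)) ^ 2 := by
  have hid := real_identity ha h hy
  simp only at hid
  have hQ := Q_pos ha h hy0 hy
  have h1 : 1 ≤ (∫⁻ x, ex y x ∂μ₁).toReal := by
    have := ENNReal.toReal_mono hy.1.ne (one_le_L μ₁ hs₁ y)
    simpa using this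
  have h2 : 1 ≤ (∫⁻ x, ex y x ∂μ₂).toReal := by
    have := ENNReal.toReal_mono hy.2.ne (one_le_L μ₂ hs₂ y)
    simpa using this
  have hE1 : 1 ≤ Real.exp (a * y ^ 2) := Real.one_le_exp (by positivity)
  set h₁ := (∫⁻ x, ex y x ∂μ₁).toReal
  set h₂ := (∫⁻ x, ex y x ∂μ₂).toReal
  set E := Real.exp (a * y ^ 2)
  have k1 := numeric_key h₁ h₂ E h1 h2 hE1 hQ hid
  have k2 := numeric_key h₂ h₁ E h2 h1 hE1 (by rw [mul_comm h₂ h₁]; exact hQ)
    (by linear_combination hid)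
  refine ⟨h1, h2, ?_, k1.2⟩
  rcases min_choice h₁ h₂ with hm | hm
  · rw [hm]
    have := k2.1
    rw [mul_comm h₂ h₁] at this
    exact this
  · rw [hm]; exact k1.1

theorem tendsto_setL (A : Measure ℝ) (y : ℝ) (hA : (∫⁻ x, ex y x ∂A) < ∞) :
    Tendsto (fun n : ℕ => (∫⁻ x in Icc (-(n : ℝ)) n, ex y x ∂A).toReal) atTop
      (𝓝 (∫⁻ x, ex y x ∂A).toReal) := by
  have h1 : ∀ s : Set ℝ, MeasurableSet s → ∫⁻ x in s, ex y x ∂A = (A.withDensity (ex y)) s :=
    fun s hs => (withDensity_apply _ hs).symm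
  have h2 : ∫⁻ x, ex y x ∂A = (A.withDensity (ex y)) (⋃ n : ℕ, Icc (-(n : ℝ)) n) := by
    have : (⋃ n : ℕ, Icc (-(n : ℝ)) n) = univ := by
      apply eq_univ_of_forall
      intro x
      obtain ⟨n, hn⟩ := exists_nat_ge |x|
      exact mem_iUnion.mpr ⟨n, abs_le.mp hn⟩
    rw [this, withDensity_apply _ MeasurableSet.univ]
    simp
  have h3 : Tendsto (fun n : ℕ => (A.withDensity (ex y)) (Icc (-(n : ℝ)) n)) atTop
      (𝓝 ((A.withDensity (ex y)) (⋃ n : ℕ, Icc (-(n : ℝ)) n))) := by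
    apply tendsto_measure_iUnion_atTop
    intro m n hmn
    have : (m : ℝ) ≤ n := by exact_mod_cast hmn
    exact Icc_subset_Icc (by linarith) this
  rw [h2]
  have h4 := (ENNReal.tendsto_toReal (a := (A.withDensity (ex y)) (⋃ n : ℕ, Icc (-(n : ℝ)) n))
    (by rw [← h2]; exact hA.ne)).comp h3
  refine h4.congr (fun n => ?_)
  simp only [Function.comp]
  rw [h1 _ measurableSet_Icc]

theorem wt_fin (A : Measure ℝ) (y δ N : ℝ) (hδ : 0 ≤ δ) (hA : (∫⁻ x, ex y x ∂A) < ∞) :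
    (∫⁻ x, wt y δ N x ∂A) < ∞ := by
  calc ∫⁻ x, wt y δ N x ∂A ≤ ∫⁻ x, ENNReal.ofReal (Real.exp (δ * N)) * ex y x ∂A := by
        apply lintegral_mono
        intro x
        show wt y δ N x ≤ ENNReal.ofReal (Real.exp (δ * N)) * ex y x
        unfold wt ex
        rw [← ENNReal.ofReal_mul (Real.exp_pos _).le, ← Real.exp_add]
        apply ENNReal.ofReal_le_ofReal
        apply Real.exp_le_exp.mpr
        nlinarith [mul_le_mul_of_nonneg_left (min_le_right |x| N) hδ]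
    _ = ENNReal.ofReal (Real.exp (δ * N)) * ∫⁻ x, ex y x ∂A :=
        lintegral_const_mul _ (measurable_ex y)
    _ < ∞ := ENNReal.mul_lt_top ENNReal.ofReal_lt_top hA

/-- passage to the limit `N → ∞`. -/
theorem L_of_bdd (A : Measure ℝ) (y δ : ℝ) (hδ : 0 ≤ δ) (C : ℝ≥0∞)
    (h : ∀ n : ℕ, ∫⁻ x, wt y δ n x ∂A ≤ C) : ∫⁻ x, ex (y + δ) x ∂A ≤ C := by
  have h1 : ∀ x, ex (y + δ) x ≤ liminf (fun n : ℕ => wt y δ n x) atTop := by
    intro x
    have ht : Tendsto (fun n : ℕ => wt y δ n x) atTop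
        (𝓝 (ENNReal.ofReal (Real.exp (y * x + δ * |x|)))) := by
      apply tendsto_const_nhds.congr'
      obtain ⟨m, hm⟩ := exists_nat_ge |x|
      filter_upwards [eventually_ge_atTop m] with n hn
      have : |x| ≤ n := hm.trans (by exact_mod_cast hn)
      simp only [wt]
      rw [min_eq_left this]
    rw [ht.liminf_eq]
    unfold ex
    apply ENNReal.ofReal_le_ofReal
    apply Real.exp_le_exp.mpr
    nlinarith [mul_le_mul_of_nonneg_left (le_abs_self x) hδ]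
  calc ∫⁻ x, ex (y + δ) x ∂A ≤ ∫⁻ x, liminf (fun n : ℕ => wt y δ n x) atTop ∂A :=
        lintegral_mono h1
    _ ≤ liminf (fun n : ℕ => ∫⁻ x, wt y δ n x ∂A) atTop :=
        lintegral_liminf_le (fun n => measurable_wt y δ n)
    _ ≤ liminf (fun _ : ℕ => C) atTop := liminf_le_liminf (Eventually.of_forall h)
    _ = C := by simp

theorem real_step (PM h1M h2M κ H Γ1 Γ2 Γ3 gPP gP g1 g2 : ℝ) (hκ : 0 < κ)
    (hΓ2 : 0 < Γ2) (hh1 : 0 ≤ h1M) (hh2 : 0 ≤ h2M)
    (hg1 : 0 ≤ g1) (hg2 : 0 ≤ g2)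
    (e1 : PM * gP + PM * gP ≤ 2 * (κ * (H * H)) + κ * gPP)
    (e2 : h2M * g1 + h1M * g2 ≤ 2 * (κ * H) + κ * gP)
    (e3 : 16 * gPP ≤ 8 * (gP * Γ2) + 4 * (gP * Γ1) + 2 * (g1 * Γ2) + 2 * (g2 * Γ2) + Γ3)
    (hβ : 0 < (32 * PM / κ - 8 * Γ2 - 4 * Γ1) * (min h1M h2M / κ) - 2 * Γ2) :
    g1 + g2 ≤ (32 * H ^ 2 + Γ3 + 2 * H * (32 * PM / κ - 8 * Γ2 - 4 * Γ1)) /
      ((32 * PM / κ - 8 * Γ2 - 4 * Γ1) * (min h1M h2M / κ) - 2 * Γ2) := by
  rw [le_div_iff₀ hβ]
  set α := 32 * PM / κ - 8 * Γ2 - 4 * Γ1 with hα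
  set m := min h1M h2M with hm
  have hm0 : 0 ≤ m := le_min hh1 hh2
  have hmκ : 0 ≤ m / κ := by positivity
  have hα0 : 0 < α := by
    by_contra hcon
    push Not at hcon
    have : α * (m / κ) ≤ 0 := mul_nonpos_of_nonpos_of_nonneg hcon hmκ
    linarith
  have e1' : 2 * (PM / κ) * gP ≤ 2 * H ^ 2 + gPP := by
    have : 2 * (PM / κ) * gP = (PM * gP + PM * gP) / κ := by field_simp; ring
    rw [this, div_le_iff₀ hκ]
    nlinarith
  have e2' : m / κ * (g1 + g2) ≤ 2 * H + gP := by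
    have h1 : m * (g1 + g2) ≤ h2M * g1 + h1M * g2 := by
      have := min_le_left h1M h2M
      have := min_le_right h1M h2M
      nlinarith
    have : m / κ * (g1 + g2) = (m * (g1 + g2)) / κ := by field_simp
    rw [this, div_le_iff₀ hκ]
    nlinarith
  have e4 : α * gP ≤ 32 * H ^ 2 + Γ3 + 2 * Γ2 * (g1 + g2) := by
    have : α * gP = 16 * (2 * (PM / κ) * gP) - 8 * (gP * Γ2) - 4 * (gP * Γ1) := by
      rw [hα]; ring
    rw [this]
    nlinarith
  have e5 : α * (m / κ * (g1 + g2)) ≤ α * (2 * H + gP) := by gcongr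
  nlinarith

theorem L_open {a : ℝ} (ha : 0 ≤ a) {μ₁ μ₂ : Measure ℝ} [IsProbabilityMeasure μ₁]
    [IsProbabilityMeasure μ₂] (hs₁ : μ₁.map (fun x => -x) = μ₁) (hs₂ : μ₂.map (fun x => -x) = μ₂)
    (h : MId a μ₁ μ₂) {y : ℝ} (hy0 : 0 ≤ y) (hy : Fin2 μ₁ μ₂ y) :
    ∃ δ > 0, Fin2 μ₁ μ₂ (y + δ) := by
  obtain ⟨hb1, hb2, hb3, hb4⟩ := L_bound ha hs₁ hs₂ h hy0 hy
  set h₁ := (∫⁻ x, ex y x ∂μ₁).toReal with hh₁
  set h₂ := (∫⁻ x, ex y x ∂μ₂).toReal with hh₂
  set E := Real.exp (a * y ^ 2) with hE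
  have hE0 : 0 < E := Real.exp_pos _
  have hPfin : (∫⁻ x, ex y x ∂(μ₁ ∗ μ₂)) < ∞ := by
    rw [conv_ex]; exact ENNReal.mul_lt_top hy.1 hy.2
  have hPreal : (∫⁻ x, ex y x ∂(μ₁ ∗ μ₂)).toReal = h₁ * h₂ := by
    rw [conv_ex, ENNReal.toReal_mul]
  -- choice of M
  have hlim : Tendsto (fun n : ℕ => (32 * (∫⁻ x in Icc (-(n : ℝ)) n, ex y x ∂(μ₁ ∗ μ₂)).toReal
      - 8 * E ^ 2 - 4 * E) * min (∫⁻ x in Icc (-(n : ℝ)) n, ex y x ∂μ₁).toReal
        (∫⁻ x in Icc (-(n : ℝ)) n, ex y x ∂μ₂).toReal) atTop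
      (𝓝 ((32 * (h₁ * h₂) - 8 * E ^ 2 - 4 * E) * min h₁ h₂)) := by
    have t1 := tendsto_setL (μ₁ ∗ μ₂) y hPfin
    rw [hPreal] at t1
    have t2 := tendsto_setL μ₁ y hy.1
    have t3 := tendsto_setL μ₂ y hy.2
    exact ((((t1.const_mul 32).sub_const _).sub_const _)).mul (t2.min t3)
  obtain ⟨M, hM⟩ := (hlim.eventually (lt_mem_nhds hb3)).exists
  set PM := (∫⁻ x in Icc (-(M : ℝ)) M, ex y x ∂(μ₁ ∗ μ₂)).toReal with hPM
  set h1M := (∫⁻ x in Icc (-(M : ℝ)) M, ex y x ∂μ₁).toReal with hh1M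
  set h2M := (∫⁻ x in Icc (-(M : ℝ)) M, ex y x ∂μ₂).toReal with hh2M
  -- choice of δ
  set K1 := Real.exp ((1 : ℕ) * (a * (y + 2) ^ 2)) + Real.exp ((1 : ℕ) * (a * (y - 2) ^ 2)) with hK1
  set K2 := Real.exp ((2 : ℕ) * (a * (y + 2) ^ 2)) + Real.exp ((2 : ℕ) * (a * (y - 2) ^ 2)) with hK2
  set K3 := Real.exp ((3 : ℕ) * (a * (y + 2) ^ 2)) + Real.exp ((3 : ℕ) * (a * (y - 2) ^ 2)) with hK3
  have hK1p : 0 < K1 := by positivity
  have hK2p : 0 < K2 := by positivity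
  have hK3p : 0 < K3 := by positivity
  set β : ℝ → ℝ := fun δ => (32 * PM / Real.exp (δ * M) - 8 * (E ^ 2 + δ * K2)
      - 4 * (E + δ * K1)) * (min h1M h2M / Real.exp (δ * M)) - 2 * (E ^ 2 + δ * K2) with hβ
  have hβc : Continuous β := by
    apply Continuous.sub
    · apply Continuous.mul
      · apply Continuous.sub
        · apply Continuous.sub
          · exact Continuous.div (by fun_prop) (by fun_prop) (fun _ => (Real.exp_pos _).ne')
          · fun_prop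
        · fun_prop
      · exact Continuous.div (by fun_prop) (by fun_prop) (fun _ => (Real.exp_pos _).ne')
    · fun_prop
  have hβ0 : 0 < β 0 := by
    simp only [hβ, zero_mul, Real.exp_zero, div_one, add_zero]
    linarith
  have hev : ∀ᶠ δ in 𝓝[>] (0 : ℝ), 0 < β δ := by
    apply eventually_nhdsWithin_of_eventually_nhds
    exact (hβc.tendsto 0).eventually (lt_mem_nhds hβ0)
  have hev1 : ∀ᶠ δ in 𝓝[>] (0 : ℝ), δ ≤ 1 := by
    apply eventually_nhdsWithin_of_eventually_nhds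
    exact (eventually_le_nhds one_pos)
  obtain ⟨δ, ⟨hδβ, hδ1⟩, hδ0⟩ := ((hev.and hev1).and self_mem_nhdsWithin).exists
  have hδ0' : (0 : ℝ) < δ := hδ0
  set κ := Real.exp (δ * M) with hκ
  have hκ0 : 0 < κ := Real.exp_pos _
  set Γ1 := E + δ * K1 with hΓ1
  set Γ2 := E ^ 2 + δ * K2 with hΓ2
  set Γ3 := E ^ 3 + δ * K3 with hΓ3
  have hΓ1p : 0 < Γ1 := by positivity
  have hΓ2p : 0 < Γ2 := by positivity
  have hΓ3p : 0 < Γ3 := by positivity
  set C := (32 * (h₁ * h₂) ^ 2 + Γ3 + 2 * (h₁ * h₂) * (32 * PM / κ - 8 * Γ2 - 4 * Γ1)) /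
      ((32 * PM / κ - 8 * Γ2 - 4 * Γ1) * (min h1M h2M / κ) - 2 * Γ2) with hC
  have hk1 : ∀ k : ℕ, Real.exp (k * (a * y ^ 2)) = E ^ k := fun k => by rw [Real.exp_nat_mul]
  have step : ∀ n : ℕ, (∫⁻ x, wt y δ n x ∂μ₁).toReal + (∫⁻ x, wt y δ n x ∂μ₂).toReal ≤ C := by
    intro n
    have hn : (0 : ℝ) ≤ n := Nat.cast_nonneg n
    have f1 := wt_fin μ₁ y δ n hδ0'.le hy.1
    have f2 := wt_fin μ₂ y δ n hδ0'.le hy.2
    have fP := wt_fin (μ₁ ∗ μ₂) y δ n hδ0'.le hPfin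
    have fPP := wt_fin ((μ₁ ∗ μ₂) ∗ (μ₁ ∗ μ₂)) y δ n hδ0'.le (by
      rw [conv_ex]; exact ENNReal.mul_lt_top hPfin hPfin)
    have a1 := conv_wt_ge (μ₁ ∗ μ₂) (μ₁ ∗ μ₂) y δ n M hδ0'.le
    have a2 := conv_wt_ge μ₁ μ₂ y δ n M hδ0'.le
    rw [← hκ] at a1 a2
    have hy1 : (∫⁻ x, ex y x ∂μ₁) < ∞ := hy.1
    have hy2 : (∫⁻ x, ex y x ∂μ₂) < ∞ := hy.2
    have a3 := lintegral_identity h (wt y δ n)
    have b1 := conv_wt_le (μ₁ ∗ μ₂) (gam a 2) y δ n hδ0'.le hn
    have b2 := conv_wt_le (μ₁ ∗ μ₂) (gam a 1) y δ n hδ0'.le hn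
    have b3 := conv_wt_le μ₁ (gam a 2) y δ n hδ0'.le hn
    have b4 := conv_wt_le μ₂ (gam a 2) y δ n hδ0'.le hn
    have c1 := lintegral_wt_gam_le a ha 1 y δ n hδ0'.le hδ1 hn
    have c2 := lintegral_wt_gam_le a ha 2 y δ n hδ0'.le hδ1 hn
    have c3 := lintegral_wt_gam_le a ha 3 y δ n hδ0'.le hδ1 hn
    rw [hk1, ← hK1, pow_one, ← hΓ1] at c1
    rw [hk1, ← hK2, ← hΓ2] at c2
    rw [hk1, ← hK3, ← hΓ3] at c3
    set G1 := ∫⁻ x, wt y δ n x ∂μ₁
    set G2 := ∫⁻ x, wt y δ n x ∂μ₂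
    set GP := ∫⁻ x, wt y δ n x ∂(μ₁ ∗ μ₂)
    set GPP := ∫⁻ x, wt y δ n x ∂((μ₁ ∗ μ₂) ∗ (μ₁ ∗ μ₂))
    have a3' : 16 * GPP ≤ 8 * (GP * ENNReal.ofReal Γ2) + 4 * (GP * ENNReal.ofReal Γ1)
        + 2 * (G1 * ENNReal.ofReal Γ2) + 2 * (G2 * ENNReal.ofReal Γ2) + ENNReal.ofReal Γ3 := by
      calc 16 * GPP ≤ 16 * GPP + ∫⁻ x, wt y δ n x ∂(gam a 4) := le_self_add
        _ = _ := a3
        _ ≤ _ := by
          gcongr
          · exact b1.trans (by gcongr)
          · exact b2.trans (by gcongr)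
          · exact b3.trans (by gcongr)
          · exact b4.trans (by gcongr)
    have lt1 : (∫⁻ x in Icc (-(M : ℝ)) M, ex y x ∂μ₁) < ∞ :=
      (setLIntegral_le_lintegral _ _).trans_lt hy.1
    have lt2 : (∫⁻ x in Icc (-(M : ℝ)) M, ex y x ∂μ₂) < ∞ :=
      (setLIntegral_le_lintegral _ _).trans_lt hy.2
    have ltP : (∫⁻ x in Icc (-(M : ℝ)) M, ex y x ∂(μ₁ ∗ μ₂)) < ∞ :=
      (setLIntegral_le_lintegral _ _).trans_lt hPfin
    apply real_step PM h1M h2M κ (h₁ * h₂) Γ1 Γ2 Γ3 GPP.toReal GP.toReal G1.toReal G2.toReal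
      hκ0 hΓ2p ENNReal.toReal_nonneg ENNReal.toReal_nonneg
      ENNReal.toReal_nonneg ENNReal.toReal_nonneg
    · have := ENNReal.toReal_mono (by finiteness) a1
      rw [ENNReal.toReal_add (by finiteness) (by finiteness),
        ENNReal.toReal_add (by finiteness) (by finiteness)] at this
      simp only [ENNReal.toReal_mul, ENNReal.toReal_ofReal hκ0.le, hPreal] at this
      simpa using this
    · have := ENNReal.toReal_mono (by finiteness) a2
      rw [ENNReal.toReal_add (by finiteness) (by finiteness),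
        ENNReal.toReal_add (by finiteness) (by finiteness)] at this
      simp only [ENNReal.toReal_mul, ENNReal.toReal_ofReal hκ0.le] at this
      simpa using this
    · have := ENNReal.toReal_mono (by finiteness) a3'
      rw [ENNReal.toReal_add (by finiteness) (by finiteness),
        ENNReal.toReal_add (by finiteness) (by finiteness),
        ENNReal.toReal_add (by finiteness) (by finiteness),
        ENNReal.toReal_add (by finiteness) (by finiteness)] at this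
      simp only [ENNReal.toReal_mul, ENNReal.toReal_ofReal hΓ1p.le,
        ENNReal.toReal_ofReal hΓ2p.le, ENNReal.toReal_ofReal hΓ3p.le] at this
      simpa using this
    · exact hδβ
  refine ⟨δ, hδ0', ?_, ?_⟩
  · refine (L_of_bdd μ₁ y δ hδ0'.le (ENNReal.ofReal C) (fun n => ?_)).trans_lt
      ENNReal.ofReal_lt_top
    have f1 := wt_fin μ₁ y δ n hδ0'.le hy.1
    rw [← ENNReal.ofReal_toReal f1.ne]
    apply ENNReal.ofReal_le_ofReal
    have := step n
    have h0 : 0 ≤ (∫⁻ x, wt y δ n x ∂μ₂).toReal := ENNReal.toReal_nonneg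
    linarith
  · refine (L_of_bdd μ₂ y δ hδ0'.le (ENNReal.ofReal C) (fun n => ?_)).trans_lt
      ENNReal.ofReal_lt_top
    have f1 := wt_fin μ₂ y δ n hδ0'.le hy.2
    rw [← ENNReal.ofReal_toReal f1.ne]
    apply ENNReal.ofReal_le_ofReal
    have := step n
    have h0 : 0 ≤ (∫⁻ x, wt y δ n x ∂μ₁).toReal := ENNReal.toReal_nonneg
    linarith

theorem L_each {a : ℝ} (ha : 0 ≤ a) {μ₁ μ₂ : Measure ℝ} [IsProbabilityMeasure μ₁]
    [IsProbabilityMeasure μ₂] (hs₁ : μ₁.map (fun x => -x) = μ₁) (hs₂ : μ₂.map (fun x => -x) = μ₂)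
    (h : MId a μ₁ μ₂) {y : ℝ} (hy0 : 0 ≤ y) (hy : Fin2 μ₁ μ₂ y) :
    (∫⁻ x, ex y x ∂μ₁) ≤ ENNReal.ofReal (5 / 4 * Real.exp (2 * a * y ^ 2)) ∧
    (∫⁻ x, ex y x ∂μ₂) ≤ ENNReal.ofReal (5 / 4 * Real.exp (2 * a * y ^ 2)) := by
  obtain ⟨h1, h2, -, h4⟩ := L_bound ha hs₁ hs₂ h hy0 hy
  have e : (Real.exp (a * y ^ 2)) ^ 2 = Real.exp (2 * a * y ^ 2) := by
    rw [← Real.exp_nat_mul]; congr 1; push_cast; ring
  rw [e] at h4
  constructor
  · rw [← ENNReal.ofReal_toReal hy.1.ne]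
    apply ENNReal.ofReal_le_ofReal
    nlinarith
  · rw [← ENNReal.ofReal_toReal hy.2.ne]
    apply ENNReal.ofReal_le_ofReal
    nlinarith

theorem fatou_L (μ : Measure ℝ) (u : ℕ → ℝ) (y : ℝ) (hu : Tendsto u atTop (𝓝 y)) (C : ℝ≥0∞)
    (h : ∀ n, ∫⁻ x, ex (u n) x ∂μ ≤ C) : ∫⁻ x, ex y x ∂μ ≤ C := by
  have h1 : ∀ x, ex y x = liminf (fun n => ex (u n) x) atTop := by
    intro x
    have : Tendsto (fun n => ex (u n) x) atTop (𝓝 (ex y x)) := by
      unfold ex
      apply ENNReal.tendsto_ofReal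
      exact (Real.continuous_exp.tendsto _).comp (hu.mul_const x)
    exact this.liminf_eq.symm
  calc ∫⁻ x, ex y x ∂μ = ∫⁻ x, liminf (fun n => ex (u n) x) atTop ∂μ :=
        lintegral_congr h1
    _ ≤ liminf (fun n => ∫⁻ x, ex (u n) x ∂μ) atTop :=
        lintegral_liminf_le (fun n => measurable_ex _)
    _ ≤ liminf (fun _ : ℕ => C) atTop := liminf_le_liminf (Eventually.of_forall h)
    _ = C := by simp

theorem all_fin {a : ℝ} (ha : 0 ≤ a) {μ₁ μ₂ : Measure ℝ} [IsProbabilityMeasure μ₁]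
    [IsProbabilityMeasure μ₂] (hs₁ : μ₁.map (fun x => -x) = μ₁) (hs₂ : μ₂.map (fun x => -x) = μ₂)
    (h : MId a μ₁ μ₂) {b : ℝ} (hb : 0 ≤ b) : Fin2 μ₁ μ₂ b := by
  set s : Set ℝ := {y | Fin2 μ₁ μ₂ y} with hs
  have hclosed : IsClosed (s ∩ Icc 0 b) := by
    apply IsSeqClosed.isClosed
    intro u y hu huy
    have hy : y ∈ Icc 0 b := isClosed_Icc.mem_of_tendsto huy (Eventually.of_forall fun n => (hu n).2)
    refine ⟨?_, hy⟩
    have hbd : ∀ n, (∫⁻ x, ex (u n) x ∂μ₁) ≤ ENNReal.ofReal (5 / 4 * Real.exp (2 * a * b ^ 2)) ∧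
        (∫⁻ x, ex (u n) x ∂μ₂) ≤ ENNReal.ofReal (5 / 4 * Real.exp (2 * a * b ^ 2)) := by
      intro n
      have hn := L_each ha hs₁ hs₂ h (hu n).2.1 (hu n).1
      have : ENNReal.ofReal (5 / 4 * Real.exp (2 * a * (u n) ^ 2)) ≤
          ENNReal.ofReal (5 / 4 * Real.exp (2 * a * b ^ 2)) := by
        apply ENNReal.ofReal_le_ofReal
        have h1 := (hu n).2.1
        have h2 := (hu n).2.2
        gcongr
      exact ⟨hn.1.trans this, hn.2.trans this⟩
    exact ⟨(fatou_L μ₁ u y huy _ fun n => (hbd n).1).trans_lt ENNReal.ofReal_lt_top,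
      (fatou_L μ₂ u y huy _ fun n => (hbd n).2).trans_lt ENNReal.ofReal_lt_top⟩
  have h0 : (0 : ℝ) ∈ s := by
    constructor <;> simp [ex]
  have hsub : Icc 0 b ⊆ s := by
    apply hclosed.Icc_subset_of_forall_mem_nhdsWithin h0
    intro x hx
    obtain ⟨δ, hδ, hfin⟩ := L_open ha hs₁ hs₂ h hx.2.1 hx.1
    have hmem : Ioo x (x + δ) ∈ 𝓝[>] x := Ioo_mem_nhdsGT (by linarith)
    filter_upwards [hmem] with t ht
    have ht0 : 0 ≤ t := hx.2.1.trans ht.1.le
    have hf1 : (∫⁻ x_1, ex (x + δ) x_1 ∂μ₁) < ∞ := hfin.1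
    have hf2 : (∫⁻ x_1, ex (x + δ) x_1 ∂μ₂) < ∞ := hfin.2
    exact ⟨(L_mono_fin ht0 ht.2.le).trans_lt (by finiteness),
      (L_mono_fin ht0 ht.2.le).trans_lt (by finiteness)⟩
  exact hsub ⟨hb, le_rfl⟩

theorem L_neg (μ : Measure ℝ) (hsym : μ.map (fun x => -x) = μ) (y : ℝ) :
    ∫⁻ x, ex (-y) x ∂μ = ∫⁻ x, ex y x ∂μ := by
  conv_rhs => rw [← hsym]
  rw [lintegral_map (measurable_ex y) measurable_neg]
  apply lintegral_congr
  intro x
  unfold ex
  congr 2; ring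

/-- All exponential moments are finite, with a Gaussian bound. -/
theorem exp_moments {a : ℝ} (ha : 0 ≤ a) {μ₁ μ₂ : Measure ℝ} [IsProbabilityMeasure μ₁]
    [IsProbabilityMeasure μ₂] (hs₁ : μ₁.map (fun x => -x) = μ₁) (hs₂ : μ₂.map (fun x => -x) = μ₂)
    (h : MId a μ₁ μ₂) (y : ℝ) :
    Integrable (fun x => Real.exp (y * x)) μ₁ ∧ mgf id μ₁ y ≤ 5 / 4 * Real.exp (2 * a * y ^ 2) := by
  have hL : (∫⁻ x, ex y x ∂μ₁) ≤ ENNReal.ofReal (5 / 4 * Real.exp (2 * a * y ^ 2)) := by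
    rcases le_total 0 y with hy | hy
    · exact (L_each ha hs₁ hs₂ h hy (all_fin ha hs₁ hs₂ h hy)).1
    · have hy' : 0 ≤ -y := by linarith
      have := (L_each ha hs₁ hs₂ h hy' (all_fin ha hs₁ hs₂ h hy')).1
      rw [L_neg μ₁ hs₁] at this
      simpa using this
  constructor
  · refine ⟨by fun_prop, ?_⟩
    rw [hasFiniteIntegral_iff_ofReal (ae_of_all _ fun x => (Real.exp_pos _).le)]
    exact hL.trans_lt ENNReal.ofReal_lt_top
  · unfold mgf
    rw [integral_eq_lintegral_of_nonneg_ae (ae_of_all _ fun x => (Real.exp_pos _).le)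
      (by fun_prop)]
    exact ENNReal.toReal_le_of_le_ofReal (by positivity) hL

/-- Main analytic statement. -/
theorem main_core {a : ℝ} (ha : 0 ≤ a) (μ₁ μ₂ : Measure ℝ) [IsProbabilityMeasure μ₁]
    [IsProbabilityMeasure μ₂] (s₁ s₂ : ℝ → ℝ) (hp₁ : ∀ t, 0 ≤ s₁ t) (hp₂ : ∀ t, 0 ≤ s₂ t)
    (hs : ∀ t, s₁ t + s₂ t = a * t ^ 2)
    (h₁ : ∀ t : ℝ, charFun μ₁ t = ((Real.exp (-s₁ t) + Real.exp (-2 * s₁ t)) / 2 : ℝ))
    (h₂ : ∀ t : ℝ, charFun μ₂ t = ((Real.exp (-s₂ t) + Real.exp (-2 * s₂ t)) / 2 : ℝ)) :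
    ∃ c : ℝ, 0 ≤ c ∧ ∀ t, s₁ t = c * t ^ 2 := by
  have hsym₁ := map_neg_eq μ₁ _ h₁
  have hsym₂ := map_neg_eq μ₂ _ h₂
  have hid : MId a μ₁ μ₂ := measure_identity a ha μ₁ μ₂ s₁ s₂ hs h₁ h₂
  have hid' : MId a μ₂ μ₁ := measure_identity a ha μ₂ μ₁ s₂ s₁
    (fun t => by rw [add_comm]; exact hs t) h₂ h₁
  have m₁ := exp_moments ha hsym₁ hsym₂ hid
  have m₂ := exp_moments ha hsym₂ hsym₁ hid'
  have d₁ : Differentiable ℂ (complexMGF id μ₁) := by
    intro z
    have hset : integrableExpSet id μ₁ = univ := by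
      ext y; simpa [integrableExpSet] using (m₁ y).1
    exact (hasDerivAt_complexMGF (by rw [hset]; simp)).differentiableAt
  have d₂ : Differentiable ℂ (complexMGF id μ₂) := by
    intro z
    have hset : integrableExpSet id μ₂ = univ := by
      ext y; simpa [integrableExpSet] using (m₂ y).1
    exact (hasDerivAt_complexMGF (by rw [hset]; simp)).differentiableAt
  apply exponent_quadratic a (5 / 4) (2 * a) (by norm_num) (by positivity) (complexMGF id μ₁)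
    (complexMGF id μ₂) d₁ d₂ s₁ s₂ hp₁ hp₂ hs
  · intro t
    rw [complexMGF_id_mul_I, h₁ t]
  · intro t
    rw [complexMGF_id_mul_I, h₂ t]
  · intro z
    exact norm_complexMGF_le_mgf.trans (m₁ z.re).2

end MeasurePart

end Pool.Agent.Lib.MP_c7609e
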